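import Pool.Agent.Lib.MP_c7af3c_ag.GEN.Schemes

/-!
Module SFRAC: the values of `R`-sections lie in the fraction field of `R`.
-/

set_option autoImplicit false

namespace Pool.Agent.Gen.H96

open AlgebraicGeometry CategoryTheory CategoryTheory.Limits

/-- `kval` as a ring homomorphism -/
noncomputable def kvalHom {k : Type} [Field k] {Y : Scheme.{0}}
    (y : Spec (CommRingCat.of k) ⟶ Y) (U : Y.Opens) (h : ⊤ ≤ y ⁻¹ᵁ U) : Γ(Y, U) →+* k :=
  (Scheme.ΓSpecIso (CommRingCat.of k)).hom.hom.comp (y.appLE U ⊤ h).hom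

theorem kval_eq {k : Type} [Field k] {Y : Scheme.{0}}
    (y : Spec (CommRingCat.of k) ⟶ Y) (U : Y.Opens) (h : ⊤ ≤ y ⁻¹ᵁ U) (f : Γ(Y, U)) :
    kval y U h f = kvalHom y U h f := rfl

/-- `kval` of a composition -/
theorem kval_comp {k : Type} [Field k] {Y Z : Scheme.{0}} (y : Spec (CommRingCat.of k) ⟶ Y)
    (s : Y ⟶ Z) (U : Z.Opens) (W : Y.Opens) (e : W ≤ s ⁻¹ᵁ U) (hW : ⊤ ≤ y ⁻¹ᵁ W)
    (h : ⊤ ≤ (y ≫ s) ⁻¹ᵁ U) (b : Γ(Z, U)) :
    kval (y ≫ s) U h b = kval y W hW ((s.appLE U W e).hom b) := by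
  unfold kval
  rw [← Scheme.Hom.appLE_comp_appLE y s U W ⊤ e hW]
  rfl

/-- `kval` and restriction -/
theorem kval_res {k : Type} [Field k] {Y : Scheme.{0}} (y : Spec (CommRingCat.of k) ⟶ Y)
    (U W : Y.Opens) (e : W ≤ U) (hW : ⊤ ≤ y ⁻¹ᵁ W) (h : ⊤ ≤ y ⁻¹ᵁ U) (b : Γ(Y, U)) :
    kval y W hW ((Y.presheaf.map (homOfLE e).op).hom b) = kval y U h b := by
  unfold kval
  congr 1
  have := Scheme.Hom.map_appLE y hW (homOfLE e).op
  exact congrArg (fun g => g.hom b) this

/-- values of global sections of `Spec R` -/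
theorem kval_top {k : Type} [Field k] (R : Subring k) (h : ⊤ ≤ specIncl R ⁻¹ᵁ ⊤)
    (z : Γ(Spec (CommRingCat.of R), ⊤)) : kval (specIncl R) ⊤ h z ∈ R := by
  have h1 := Scheme.ΓSpecIso_naturality (CommRingCat.ofHom R.subtype)
  have h2 : kval (specIncl R) ⊤ h z =
      R.subtype ((Scheme.ΓSpecIso (CommRingCat.of R)).hom.hom z) := by
    unfold kval
    have h3 := congrArg (fun g => g.hom z) h1
    simp only [CommRingCat.hom_comp, RingHom.comp_apply, CommRingCat.hom_ofHom] at h3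
    rw [← h3]
    congr 1
  rw [h2]
  exact ((Scheme.ΓSpecIso (CommRingCat.of R)).hom.hom z).2

/-- Module SFRAC. -/
theorem sfrac : SfracStatement := by
  intro k _ R Y s U h b
  let a : Spec (CommRingCat.of k) := (default : PrimeSpectrum k)
  have ha : (specIncl R).base a ∈ s ⁻¹ᵁ U := h (show a ∈ (⊤ : (Spec (CommRingCat.of k)).Opens) from trivial)
  obtain ⟨f, hf, haf⟩ := (isAffineOpen_top (Spec (CommRingCat.of R))).exists_basicOpen_le
    ⟨_, ha⟩ trivial
  have hW : ⊤ ≤ specIncl R ⁻¹ᵁ (Spec (CommRingCat.of R)).basicOpen f := by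
    intro a' _
    have : a' = a := Subsingleton.elim (α := PrimeSpectrum k) a' a
    rw [this]
    exact haf
  rw [kval_comp (specIncl R) s U _ hf hW h b]
  set t := (s.appLE U ((Spec (CommRingCat.of R)).basicOpen f) hf).hom b with ht
  have hloc := (isAffineOpen_top (Spec (CommRingCat.of R))).isLocalization_basicOpen f
  obtain ⟨n, z, hz⟩ := IsLocalization.Away.surj f t
  have htop : ⊤ ≤ specIncl R ⁻¹ᵁ (⊤ : (Spec (CommRingCat.of R)).Opens) := le_refl _
  have hres : ∀ g : Γ(Spec (CommRingCat.of R), ⊤),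
      kvalHom (specIncl R) _ hW (algebraMap Γ(Spec (CommRingCat.of R), ⊤)
        Γ(Spec (CommRingCat.of R), (Spec (CommRingCat.of R)).basicOpen f) g) =
        kval (specIncl R) ⊤ htop g := fun g =>
    kval_res (specIncl R) ⊤ _ ((Spec (CommRingCat.of R)).basicOpen_le f) hW htop g
  have hunit : kval (specIncl R) ⊤ htop f ≠ 0 := by
    rw [← hres f]
    exact ((IsLocalization.Away.algebraMap_isUnit f).map (kvalHom (specIncl R) _ hW)).ne_zero
  have hz' := congrArg (kvalHom (specIncl R) _ hW) hz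
  rw [map_mul, map_pow, hres, hres] at hz'
  have hval : kval (specIncl R) _ hW t =
      kval (specIncl R) ⊤ htop z / kval (specIncl R) ⊤ htop f ^ n := by
    rw [eq_div_iff (pow_ne_zero _ hunit)]
    exact hz'
  rw [hval]
  exact div_mem (Subfield.subset_closure (kval_top R htop z))
    (pow_mem (Subfield.subset_closure (kval_top R htop f)) n)

end Pool.Agent.Gen.H96
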