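import Pool.Agent.Lib.MP_c7af3c_ag.GEN.Interfaces

/-!
Module RES: if `KK` and `EE` are linearly disjoint over the algebraically closed field `C`, then
`KK` is algebraically closed in `KK(EE)`.
-/

set_option autoImplicit false

namespace Pool.Agent.Gen.H96

open TensorProduct

/-- Nullstellensatz: a finitely generated nontrivial algebra over an algebraically closed field has
a point. -/
theorem exists_point (C : Type) [Field C] [IsAlgClosed C] (R : Type) [CommRing R] [Nontrivial R]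
    [Algebra C R] [Algebra.FiniteType C R] : Nonempty (R →ₐ[C] C) := by
  obtain ⟨m, hm⟩ := Ideal.exists_maximal R
  let _ : Field (R ⧸ m) := Ideal.Quotient.field m
  have h1 : Algebra.FiniteType C (R ⧸ m) :=
    Algebra.FiniteType.of_surjective (Ideal.Quotient.mkₐ C m)
      (Ideal.Quotient.mkₐ_surjective C m)
  have h2 : Module.Finite C (R ⧸ m) := finite_of_finite_type_of_isJacobsonRing C (R ⧸ m)
  have h3 : Function.Bijective (algebraMap C (R ⧸ m)) :=
    IsAlgClosed.algebraMap_bijective_of_isIntegral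
  let e : C ≃ₐ[C] (R ⧸ m) := AlgEquiv.ofBijective (Algebra.ofId C (R ⧸ m)) h3
  exact ⟨(e.symm : (R ⧸ m) →ₐ[C] C).comp (Ideal.Quotient.mkₐ C m)⟩

theorem sum_div_eq {Ω : Type} [Field Ω] (c : ℕ → Ω) (m : ℕ) (r s : Ω) (hs : s ≠ 0) :
    ∑ i ∈ Finset.range (m + 1), c i * r ^ i * s ^ (m - i) =
      s ^ m * ∑ i ∈ Finset.range (m + 1), c i * (r / s) ^ i := by
  rw [Finset.mul_sum]
  refine Finset.sum_congr rfl fun i hi => ?_
  have hi' : i ≤ m := Nat.lt_succ_iff.1 (Finset.mem_range.1 hi)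
  have h : s ^ m = s ^ (m - i) * s ^ i := by rw [← pow_add, Nat.sub_add_cancel hi']
  rw [h, div_pow]
  field_simp

/-- Module RES. -/
theorem res : ResStatement := by
  intro C Ω _ _ _ _ KK EE hld y hy halg
  classical
  have hld' : KK.toSubalgebra.LinearDisjoint EE.toSubalgebra :=
    IntermediateField.linearDisjoint_iff'.1 hld
  -- `y` is a quotient
  have hy1 : y ∈ IntermediateField.adjoin C ((KK : Set Ω) ∪ (EE : Set Ω)) := by
    refine (sup_le ?_ ?_ : KK ⊔ EE ≤ _) hy
    · intro z hz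
      exact IntermediateField.subset_adjoin _ _ (Or.inl hz)
    · intro z hz
      exact IntermediateField.subset_adjoin _ _ (Or.inr hz)
  have hsub : Algebra.adjoin C ((KK : Set Ω) ∪ (EE : Set Ω)) ≤
      KK.toSubalgebra ⊔ EE.toSubalgebra := by
    refine Algebra.adjoin_le ?_
    rintro z (hz | hz)
    · exact (le_sup_left : KK.toSubalgebra ≤ _) hz
    · exact (le_sup_right : EE.toSubalgebra ≤ _) hz
  obtain ⟨r, hr, s, hs, hrs⟩ := IntermediateField.mem_adjoin_iff_div.1 hy1
  have hr' := hsub hr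
  have hs' := hsub hs
  rw [← Subalgebra.mulMap_range] at hr' hs'
  obtain ⟨a0, ha0⟩ := hr'
  obtain ⟨b0, hb0⟩ := hs'
  by_cases hy0 : y = 0
  · rw [hy0]
    exact zero_mem _
  have hs0 : s ≠ 0 := by
    rintro rfl
    exact hy0 (by rw [hrs, div_zero])
  let κ := Module.Basis.ofVectorSpace C KK.toSubalgebra
  obtain ⟨ca, hca⟩ := TensorProduct.eq_repr_basis_left (N := EE.toSubalgebra) κ a0
  obtain ⟨cb, hcb⟩ := TensorProduct.eq_repr_basis_left (N := EE.toSubalgebra) κ b0
  have hr1 : r = ∑ i ∈ ca.support, (κ i : Ω) * (ca i : Ω) := by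
    have h1 : r = (KK.toSubalgebra.mulMap EE.toSubalgebra) a0 := ha0.symm
    rw [h1, ← hca, Finsupp.sum, map_sum]
    rfl
  have hs1 : s = ∑ i ∈ cb.support, (κ i : Ω) * (cb i : Ω) := by
    have h1 : s = (KK.toSubalgebra.mulMap EE.toSubalgebra) b0 := hb0.symm
    rw [h1, ← hcb, Finsupp.sum, map_sum]
    rfl
  obtain ⟨i0, hi0⟩ : ∃ i, i ∈ cb.support := by
    by_contra hcon
    push Not at hcon
    apply hs0
    rw [hs1]
    exact Finset.sum_eq_zero fun i hi => absurd hi (hcon i)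
  have hci0 : (cb i0 : Ω) ≠ 0 := by
    intro h
    exact (Finsupp.mem_support_iff.1 hi0) (Subtype.ext h)
  -- the finitely generated algebra
  set S : Finset Ω := ca.support.image (fun i => (ca i : Ω)) ∪
    cb.support.image (fun i => (cb i : Ω)) ∪ {(cb i0 : Ω)⁻¹} with hS
  set R : Subalgebra C Ω := Algebra.adjoin C (S : Set Ω) with hR
  have hRE : R ≤ EE.toSubalgebra := by
    refine Algebra.adjoin_le ?_
    intro z hz
    rw [Finset.mem_coe, hS, Finset.mem_union, Finset.mem_union, Finset.mem_image,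
      Finset.mem_image, Finset.mem_singleton] at hz
    rcases hz with (⟨i, -, rfl⟩ | ⟨i, -, rfl⟩) | rfl
    · exact (ca i).2
    · exact (cb i).2
    · exact EE.inv_mem (cb i0).2
  have hsa : ∀ i, (ca i : Ω) ∈ R := by
    intro i
    by_cases hi : i ∈ ca.support
    · refine Algebra.subset_adjoin ?_
      rw [Finset.mem_coe, hS, Finset.mem_union, Finset.mem_union]
      exact Or.inl (Or.inl (Finset.mem_image_of_mem _ hi))
    · rw [Finsupp.notMem_support_iff.1 hi]
      exact zero_mem R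
  have hsb : ∀ i, (cb i : Ω) ∈ R := by
    intro i
    by_cases hi : i ∈ cb.support
    · refine Algebra.subset_adjoin ?_
      rw [Finset.mem_coe, hS, Finset.mem_union, Finset.mem_union]
      exact Or.inl (Or.inr (Finset.mem_image_of_mem _ hi))
    · rw [Finsupp.notMem_support_iff.1 hi]
      exact zero_mem R
  have hinv : (cb i0 : Ω)⁻¹ ∈ R := by
    refine Algebra.subset_adjoin ?_
    rw [Finset.mem_coe, hS, Finset.mem_union]
    exact Or.inr (Finset.mem_singleton_self _)
  have hRld : KK.toSubalgebra.LinearDisjoint R := hld'.of_le_right_of_flat hRE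
  have hft : Algebra.FiniteType C R := by
    rw [← Subalgebra.fg_iff_finiteType]
    exact ⟨S, rfl⟩
  obtain ⟨φ⟩ := exists_point C R
  let a' : KK.toSubalgebra ⊗[C] R := ∑ i ∈ ca.support, κ i ⊗ₜ ⟨(ca i : Ω), hsa i⟩
  let b' : KK.toSubalgebra ⊗[C] R := ∑ i ∈ cb.support, κ i ⊗ₜ ⟨(cb i : Ω), hsb i⟩
  have hma : KK.toSubalgebra.mulMap R a' = r := by
    rw [hr1, map_sum]
    rfl
  have hmb : KK.toSubalgebra.mulMap R b' = s := by
    rw [hs1, map_sum]
    rfl
  let ρ : KK.toSubalgebra ⊗[C] R →ₐ[C] KK.toSubalgebra :=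
    Algebra.TensorProduct.lift (AlgHom.id C _) ((Algebra.ofId C KK.toSubalgebra).comp φ)
      (fun _ _ => Commute.all _ _)
  have hρb : ρ b' ≠ 0 := by
    intro h
    have h1 : ρ b' = ∑ i ∈ cb.support, φ ⟨(cb i : Ω), hsb i⟩ • κ i := by
      change ρ (∑ i ∈ cb.support, κ i ⊗ₜ ⟨(cb i : Ω), hsb i⟩) = _
      rw [map_sum]
      refine Finset.sum_congr rfl fun i _ => ?_
      change ρ (κ i ⊗ₜ ⟨(cb i : Ω), hsb i⟩) = _
      rw [Algebra.TensorProduct.lift_tmul, Algebra.smul_def, mul_comm]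
      rfl
    rw [h1] at h
    have h2 := linearIndependent_iff'.1 κ.linearIndependent cb.support
      (fun i => φ ⟨(cb i : Ω), hsb i⟩) h i0 hi0
    have h3 : (⟨(cb i0 : Ω), hsb i0⟩ : R) * ⟨(cb i0 : Ω)⁻¹, hinv⟩ = 1 :=
      Subtype.ext (mul_inv_cancel₀ hci0)
    have h4 := congrArg φ h3
    rw [map_mul, map_one] at h4
    rw [h2, zero_mul] at h4
    exact zero_ne_one h4
  -- the minimal polynomial
  have hint : IsIntegral KK y := halg.isIntegral
  set p := minpoly KK y with hp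
  have hpy : ∑ i ∈ Finset.range (p.natDegree + 1), (p.coeff i : Ω) * (r / s) ^ i = 0 := by
    have h1 := minpoly.aeval KK y
    rw [Polynomial.aeval_eq_sum_range, ← hp] at h1
    rw [← hrs]
    exact h1
  let q : ℕ → KK.toSubalgebra := fun i => ⟨(p.coeff i : Ω), (p.coeff i).2⟩
  have hT : ∑ i ∈ Finset.range (p.natDegree + 1),
      (q i ⊗ₜ[C] (1 : R)) * a' ^ i * b' ^ (p.natDegree - i) = 0 := by
    apply hRld.injective
    rw [map_zero, map_sum]
    have h1 : ∀ i, (KK.toSubalgebra.mulMap R) ((q i ⊗ₜ[C] (1 : R)) * a' ^ i *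
        b' ^ (p.natDegree - i)) = (p.coeff i : Ω) * r ^ i * s ^ (p.natDegree - i) := by
      intro i
      rw [map_mul, map_mul, map_pow, map_pow, hma, hmb]
      congr 2
      rw [Subalgebra.mulMap_tmul]
      simp [q]
    have h2 : ∑ i ∈ Finset.range (p.natDegree + 1), (p.coeff i : Ω) * r ^ i *
        s ^ (p.natDegree - i) = 0 := by
      rw [sum_div_eq _ _ _ _ hs0, hpy, mul_zero]
    rw [← h2]
    exact Finset.sum_congr rfl fun i _ => h1 i
  have hT3 : ∑ i ∈ Finset.range (p.natDegree + 1), (p.coeff i : Ω) * (ρ a' : Ω) ^ i *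
      (ρ b' : Ω) ^ (p.natDegree - i) = 0 := by
    have h1 : ((ρ (∑ i ∈ Finset.range (p.natDegree + 1),
        (q i ⊗ₜ[C] (1 : R)) * a' ^ i * b' ^ (p.natDegree - i)) : KK.toSubalgebra) : Ω) = 0 := by
      rw [hT, map_zero]
      rfl
    refine Eq.trans ?_ h1
    have h3 : ρ (∑ i ∈ Finset.range (p.natDegree + 1),
        (q i ⊗ₜ[C] (1 : R)) * a' ^ i * b' ^ (p.natDegree - i)) =
        ∑ i ∈ Finset.range (p.natDegree + 1), q i * ρ a' ^ i * ρ b' ^ (p.natDegree - i) := by
      rw [map_sum]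
      refine Finset.sum_congr rfl fun i _ => ?_
      have h2 : ρ (q i ⊗ₜ[C] (1 : R)) = q i := by
        rw [Algebra.TensorProduct.lift_tmul]
        simp
      rw [map_mul, map_mul, map_pow, map_pow, h2]
    rw [h3, AddSubmonoidClass.coe_finsetSum]
    rfl
  have hρb' : (ρ b' : Ω) ≠ 0 := fun h => hρb (Subtype.ext h)
  rw [sum_div_eq _ _ _ _ hρb'] at hT3
  have hT4 := (mul_eq_zero.1 hT3).resolve_left (pow_ne_zero _ hρb')
  have hmem : (ρ a' : Ω) / (ρ b' : Ω) ∈ KK := KK.div_mem (ρ a').2 (ρ b').2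
  have hroot : p.IsRoot (⟨(ρ a' : Ω) / (ρ b' : Ω), hmem⟩ : KK) := by
    rw [Polynomial.IsRoot, Polynomial.eval_eq_sum_range]
    apply Subtype.ext
    push_cast
    exact hT4
  have := minpoly.root hint hroot
  rw [← this]
  exact hmem

end Pool.Agent.Gen.H96
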